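import Mathlib.Data.Nat.Nth
import Mathlib.Algebra.Order.Floor.Ring
import Mathlib.Tactic

set_option autoImplicit false

/-!
# The greedy set avoiding `5w + 2x = 5y + 2z`

The greedy set `G` equals `{5x + y : x ∈ A, 0 ≤ y ≤ 4}`, where `A` is the set of finite sums of
distinct terms of the sequence `a₀ = 0`, `aᵢ = ⌈(5 + 7 ∑_{j<i} a_j)/2⌉`. With the floor in place of
the ceiling the equality is false (the integer `10` is in one of the sets only).
-/

namespace Pool.Agent.Results.MP_cb51c9_co.GreedyStructure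

/-- `S` is free of `5w + 2x = 5y + 2z`: there are only the trivial solutions `w = y`, `x = z`. -/
def Free (S : Set ℕ) : Prop :=
  ∀ w ∈ S, ∀ x ∈ S, ∀ y ∈ S, ∀ z ∈ S, 5 * w + 2 * x = 5 * y + 2 * z → w = y ∧ x = z

/-- The greedy sequence: `g 0 = 0` and `g (i+1)` is the least integer `m > g i` such that
`{g 0, …, g i, m}` is free of `5w + 2x = 5y + 2z`. -/
def IsGreedySeq (g : ℕ → ℕ) : Prop :=
  g 0 = 0 ∧ ∀ i, IsLeast {m | g i < m ∧ Free (insert m {n | ∃ j ≤ i, n = g j})} (g (i + 1))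

/-- `a 0 = 0` and `a i = ⌈(5 + 7 ∑_{j<i} a j) / 2⌉` for `i ≥ 1`. -/
def IsCeilSeq (a : ℕ → ℕ) : Prop :=
  a 0 = 0 ∧ ∀ i, 1 ≤ i → (a i : ℤ) = ⌈(5 + 7 * ∑ j ∈ Finset.range i, (a j : ℚ)) / 2⌉

/-- `b 0 = 0` and `b i = ⌊(5 + 7 ∑_{j<i} b j) / 2⌋` for `i ≥ 1`. -/
def IsFloorSeq (b : ℕ → ℕ) : Prop :=
  b 0 = 0 ∧ ∀ i, 1 ≤ i → (b i : ℤ) = ⌊(5 + 7 * ∑ j ∈ Finset.range i, (b j : ℚ)) / 2⌋

/-- `{5x + y : x ∈ A, 0 ≤ y ≤ 4}` where `A` is the set of finite sums of distinct terms `a i`. -/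
def block (a : ℕ → ℕ) : Set ℕ :=
  {n | ∃ (I : Finset ℕ) (y : ℕ), y ≤ 4 ∧ n = 5 * ∑ i ∈ I, a i + y}

/-! ### The sequences -/

/-- the partial sums -/
def ps (a : ℕ → ℕ) (k : ℕ) : ℕ := ∑ j ∈ Finset.range (k + 1), a j

theorem ps_succ (a : ℕ → ℕ) (k : ℕ) : ps a (k + 1) = ps a k + a (k + 1) := by
  unfold ps
  rw [Finset.sum_range_succ]

theorem ceil_bounds {a : ℕ → ℕ} (ha : IsCeilSeq a) (k : ℕ) :
    7 * ps a k + 5 ≤ 2 * a (k + 1) ∧ 2 * a (k + 1) ≤ 7 * ps a k + 6 := by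
  have h := ha.2 (k + 1) (by omega)
  have h' : (5 + 7 * ∑ j ∈ Finset.range (k + 1), (a j : ℚ)) / 2 = (5 + 7 * (ps a k : ℚ)) / 2 := by
    unfold ps
    push_cast
    rfl
  rw [h'] at h
  have h1 : (5 + 7 * (ps a k : ℚ)) / 2 ≤ (a (k + 1) : ℚ) := by
    have := Int.le_ceil ((5 + 7 * (ps a k : ℚ)) / 2)
    rw [← h] at this
    exact_mod_cast this
  have h2 : (a (k + 1) : ℚ) < (5 + 7 * (ps a k : ℚ)) / 2 + 1 := by
    have := Int.ceil_lt_add_one ((5 + 7 * (ps a k : ℚ)) / 2)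
    rw [← h] at this
    exact_mod_cast this
  constructor
  · have : (7 * (ps a k : ℚ) + 5) ≤ 2 * (a (k + 1) : ℚ) := by linarith
    exact_mod_cast this
  · have : 2 * (a (k + 1) : ℚ) < 7 * (ps a k : ℚ) + 7 := by linarith
    have : 2 * a (k + 1) < 7 * ps a k + 7 := by exact_mod_cast this
    omega

/-- the sum of the first terms of the sequence with ceilings -/
def cs : ℕ → ℕ
  | 0 => 0
  | k + 1 => cs k + (6 + 7 * cs k) / 2

/-- the sequence with ceilings -/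
def ca : ℕ → ℕ
  | 0 => 0
  | k + 1 => (6 + 7 * cs k) / 2

theorem ca_sum (k : ℕ) : ∑ j ∈ Finset.range (k + 1), ca j = cs k := by
  induction k with
  | zero => simp [ca, cs]
  | succ k ih => rw [Finset.sum_range_succ, ih]; rfl

theorem ca_isCeilSeq : IsCeilSeq ca := by
  refine ⟨rfl, ?_⟩
  intro i hi
  obtain ⟨k, rfl⟩ : ∃ k, i = k + 1 := ⟨i - 1, by omega⟩
  have h := ca_sum k
  have h' : (∑ j ∈ Finset.range (k + 1), (ca j : ℚ)) = (cs k : ℚ) := by
    rw [← h]; push_cast; rfl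
  rw [h']
  symm
  rw [Int.ceil_eq_iff]
  have h1 : 7 * cs k + 5 ≤ 2 * ca (k + 1) ∧ 2 * ca (k + 1) ≤ 7 * cs k + 6 := by
    simp only [ca]
    omega
  have h2 : (7 * (cs k : ℚ) + 5) ≤ 2 * (ca (k + 1) : ℚ) := by exact_mod_cast h1.1
  have h3 : 2 * (ca (k + 1) : ℚ) ≤ 7 * (cs k : ℚ) + 6 := by exact_mod_cast h1.2
  push_cast
  constructor <;> linarith

/-- the sum of the first terms of the sequence with floors -/
def fs : ℕ → ℕ
  | 0 => 0
  | k + 1 => fs k + (5 + 7 * fs k) / 2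

/-- the sequence with floors -/
def fa : ℕ → ℕ
  | 0 => 0
  | k + 1 => (5 + 7 * fs k) / 2

theorem fa_sum (k : ℕ) : ∑ j ∈ Finset.range (k + 1), fa j = fs k := by
  induction k with
  | zero => simp [fa, fs]
  | succ k ih => rw [Finset.sum_range_succ, ih]; rfl

theorem fa_isFloorSeq : IsFloorSeq fa := by
  refine ⟨rfl, ?_⟩
  intro i hi
  obtain ⟨k, rfl⟩ : ∃ k, i = k + 1 := ⟨i - 1, by omega⟩
  have h := fa_sum k
  have h' : (∑ j ∈ Finset.range (k + 1), (fa j : ℚ)) = (fs k : ℚ) := by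
    rw [← h]; push_cast; rfl
  rw [h']
  symm
  rw [Int.floor_eq_iff]
  have h1 : 7 * fs k + 4 ≤ 2 * fa (k + 1) ∧ 2 * fa (k + 1) ≤ 7 * fs k + 5 := by
    simp only [fa]
    omega
  have h2 : (7 * (fs k : ℚ) + 4) ≤ 2 * (fa (k + 1) : ℚ) := by exact_mod_cast h1.1
  have h3 : 2 * (fa (k + 1) : ℚ) ≤ 7 * (fs k : ℚ) + 5 := by exact_mod_cast h1.2
  push_cast
  constructor <;> linarith

/-! ### Subset sums -/

/-- `x` is a subset sum of `a 1, …, a k` -/
def InA (a : ℕ → ℕ) : ℕ → ℕ → Prop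
  | 0, x => x = 0
  | k + 1, x => InA a k x ∨ ∃ x', InA a k x' ∧ x = x' + a (k + 1)

theorem InA_zero_mem (a : ℕ → ℕ) (k : ℕ) : InA a k 0 := by
  induction k with
  | zero => rfl
  | succ k ih => exact Or.inl ih

theorem InA_mono {a : ℕ → ℕ} {k l x : ℕ} (hkl : k ≤ l) (h : InA a k x) : InA a l x := by
  induction hkl with
  | refl => exact h
  | step _ ih => exact Or.inl ih

theorem InA_of_sum {a : ℕ → ℕ} (ha : a 0 = 0) (k : ℕ) :
    ∀ I : Finset ℕ, I ⊆ Finset.range (k + 1) → InA a k (∑ i ∈ I, a i) := by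
  induction k with
  | zero =>
    intro I hI
    change _ = 0
    apply Finset.sum_eq_zero
    intro i hi
    have := Finset.mem_range.mp (hI hi)
    rw [show i = 0 by omega, ha]
  | succ k ih =>
    intro I hI
    by_cases hk : k + 1 ∈ I
    · right
      refine ⟨∑ i ∈ I.erase (k + 1), a i, ih _ ?_, ?_⟩
      · intro i hi
        rw [Finset.mem_erase] at hi
        have := Finset.mem_range.mp (hI hi.2)
        exact Finset.mem_range.mpr (by omega)
      · exact (Finset.sum_erase_add _ _ hk).symm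
    · left
      apply ih
      intro i hi
      have := Finset.mem_range.mp (hI hi)
      have : i ≠ k + 1 := fun h => hk (h ▸ hi)
      exact Finset.mem_range.mpr (by omega)

theorem exists_sum_of_InA {a : ℕ → ℕ} (k : ℕ) :
    ∀ x, InA a k x → ∃ I : Finset ℕ, I ⊆ Finset.range (k + 1) ∧ x = ∑ i ∈ I, a i := by
  induction k with
  | zero =>
    intro x hx
    have hx : x = 0 := hx
    exact ⟨∅, by simp, by simp [hx]⟩
  | succ k ih =>
    rintro x (hx | ⟨x', hx', rfl⟩)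
    · obtain ⟨I, hI, rfl⟩ := ih x hx
      exact ⟨I, hI.trans (Finset.range_mono (by omega)), rfl⟩
    · obtain ⟨I, hI, rfl⟩ := ih x' hx'
      refine ⟨insert (k + 1) I, ?_, ?_⟩
      · intro i hi
        rw [Finset.mem_insert] at hi
        rcases hi with rfl | hi
        · exact Finset.mem_range.mpr (by omega)
        · have := Finset.mem_range.mp (hI hi)
          exact Finset.mem_range.mpr (by omega)
      · rw [Finset.sum_insert]
        · ring
        · intro h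
          have := Finset.mem_range.mp (hI h)
          omega

theorem mem_block {a : ℕ → ℕ} (ha : a 0 = 0) (n : ℕ) :
    n ∈ block a ↔ ∃ k x y, InA a k x ∧ y ≤ 4 ∧ n = 5 * x + y := by
  constructor
  · rintro ⟨I, y, hy, rfl⟩
    obtain ⟨k, hk⟩ : ∃ k, I ⊆ Finset.range (k + 1) := by
      refine ⟨I.sup id, fun i hi => Finset.mem_range.mpr ?_⟩
      have : id i ≤ I.sup id := Finset.le_sup hi
      simp only [id] at this
      omega
    exact ⟨k, _, y, InA_of_sum ha k I hk, hy, rfl⟩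
  · rintro ⟨k, x, y, hx, hy, rfl⟩
    obtain ⟨I, _, rfl⟩ := exists_sum_of_InA k x hx
    exact ⟨I, y, hy, rfl⟩

theorem InA_le {a : ℕ → ℕ} (k : ℕ) : ∀ x, InA a k x → x ≤ ps a k := by
  induction k with
  | zero =>
    intro x hx
    have : x = 0 := hx
    omega
  | succ k ih =>
    rw [ps_succ]
    rintro x (hx | ⟨x', hx', rfl⟩)
    · have := ih x hx
      omega
    · have := ih x' hx'
      omega

/-- `5A + 2A + [0,4]` is direct. -/
theorem direct {a : ℕ → ℕ} (ha : IsCeilSeq a) (k : ℕ) :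
    ∀ w x y z u v, InA a k w → InA a k x → InA a k y → InA a k z → u ≤ 4 → v ≤ 4 →
      5 * w + 2 * x + u = 5 * y + 2 * z + v → w = y ∧ x = z ∧ u = v := by
  induction k with
  | zero =>
    intro w x y z u v hw hx hy hz hu hv h
    have hw : w = 0 := hw
    have hx : x = 0 := hx
    have hy : y = 0 := hy
    have hz : z = 0 := hz
    omega
  | succ k ih =>
    intro w x y z u v hw hx hy hz hu hv h
    obtain ⟨hb1, -⟩ := ceil_bounds ha k
    have hle := InA_le (a := a) k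
    rcases hw with hw | ⟨w', hw, rfl⟩ <;> rcases hx with hx | ⟨x', hx, rfl⟩ <;>
      rcases hy with hy | ⟨y', hy, rfl⟩ <;> rcases hz with hz | ⟨z', hz, rfl⟩ <;>
      have h1 := hle _ hw <;> have h2 := hle _ hx <;> have h3 := hle _ hy <;>
      have h4 := hle _ hz <;> first
      | (exfalso; omega)
      | (have := ih _ _ _ _ u v hw hx hy hz hu hv (by omega); omega)

/-- `5(A - A) + 2A + [-4,4]` is an interval. -/
theorem full {a : ℕ → ℕ} (ha : IsCeilSeq a) (k : ℕ) :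
    ∀ n : ℤ, -5 * (ps a k : ℤ) - 4 ≤ n → n ≤ 7 * (ps a k : ℤ) + 4 →
      ∃ w y z u v : ℕ, InA a k w ∧ InA a k y ∧ InA a k z ∧ u ≤ 4 ∧ v ≤ 4 ∧
        n + 5 * w + v = 5 * y + 2 * z + u := by
  induction k with
  | zero =>
    intro n h1 h2
    have h0 : ps a 0 = 0 := by simp [ps, ha.1]
    rw [h0] at h1 h2
    push_cast at h1 h2
    by_cases hn : 0 ≤ n
    · exact ⟨0, 0, 0, n.toNat, 0, rfl, rfl, rfl, by omega, by omega, by push_cast; omega⟩
    · exact ⟨0, 0, 0, 0, (-n).toNat, rfl, rfl, rfl, by omega, by omega, by push_cast; omega⟩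
  | succ k ih =>
    intro n h1 h2
    rw [ps_succ] at h1 h2
    push_cast at h1 h2
    obtain ⟨hb1, hb2⟩ := ceil_bounds ha k
    rcases (by omega :
      (-5 * (ps a k : ℤ) - 4 ≤ n + 5 * a (k + 1) ∧ n + 5 * a (k + 1) ≤ 7 * (ps a k : ℤ) + 4) ∨
      (-5 * (ps a k : ℤ) - 4 ≤ n + 3 * a (k + 1) ∧ n + 3 * a (k + 1) ≤ 7 * (ps a k : ℤ) + 4) ∨
      (-5 * (ps a k : ℤ) - 4 ≤ n ∧ n ≤ 7 * (ps a k : ℤ) + 4) ∨
      (-5 * (ps a k : ℤ) - 4 ≤ n - 2 * a (k + 1) ∧ n - 2 * a (k + 1) ≤ 7 * (ps a k : ℤ) + 4) ∨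
      (-5 * (ps a k : ℤ) - 4 ≤ n - 5 * a (k + 1) ∧ n - 5 * a (k + 1) ≤ 7 * (ps a k : ℤ) + 4) ∨
      (-5 * (ps a k : ℤ) - 4 ≤ n - 7 * a (k + 1) ∧ n - 7 * a (k + 1) ≤ 7 * (ps a k : ℤ) + 4)) with
      h | h | h | h | h | h <;>
      obtain ⟨w, y, z, u, v, hw, hy, hz, hu, hv, he⟩ := ih _ h.1 h.2
    · exact ⟨w + a (k + 1), y, z, u, v, Or.inr ⟨w, hw, rfl⟩, Or.inl hy, Or.inl hz, hu, hv,
        by push_cast; linarith⟩
    · exact ⟨w + a (k + 1), y, z + a (k + 1), u, v, Or.inr ⟨w, hw, rfl⟩, Or.inl hy,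
        Or.inr ⟨z, hz, rfl⟩, hu, hv, by push_cast; linarith⟩
    · exact ⟨w, y, z, u, v, Or.inl hw, Or.inl hy, Or.inl hz, hu, hv, by linarith⟩
    · exact ⟨w, y, z + a (k + 1), u, v, Or.inl hw, Or.inl hy,
        Or.inr ⟨z, hz, rfl⟩, hu, hv, by push_cast; linarith⟩
    · exact ⟨w, y + a (k + 1), z, u, v, Or.inl hw, Or.inr ⟨y, hy, rfl⟩, Or.inl hz, hu, hv,
        by push_cast; linarith⟩
    · exact ⟨w, y + a (k + 1), z + a (k + 1), u, v, Or.inl hw, Or.inr ⟨y, hy, rfl⟩,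
        Or.inr ⟨z, hz, rfl⟩, hu, hv, by push_cast; linarith⟩

/-- the blocks of level `k` -/
def Bk (a : ℕ → ℕ) (k n : ℕ) : Prop := ∃ x y, InA a k x ∧ y ≤ 4 ∧ n = 5 * x + y

theorem conflict_base {a : ℕ → ℕ} (ha : IsCeilSeq a) (k n t : ℕ) (ht : t ≤ 4)
    (h1 : ps a k < n) (h2 : n < a (k + 1)) :
    ∃ w y z, Bk a k w ∧ Bk a k y ∧ Bk a k z ∧ w < 5 * n + t ∧ y < 5 * n + t ∧ z < 5 * n + t ∧
      5 * w + 2 * (5 * n + t) = 5 * y + 2 * z := by
  obtain ⟨hb1, hb2⟩ := ceil_bounds ha k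
  obtain ⟨w, y, z, u, v, hw, hy, hz, hu, hv, he⟩ := full ha k (2 * (n : ℤ)) (by omega) (by omega)
  have h3 := InA_le k w hw
  have h4 := InA_le k y hy
  have h5 := InA_le k z hz
  exact ⟨5 * w + v, 5 * y + u, 5 * z + t, ⟨w, v, hw, hv, rfl⟩, ⟨y, u, hy, hu, rfl⟩,
    ⟨z, t, hz, ht, rfl⟩, by omega, by omega, by omega, by omega⟩

theorem conflict {a : ℕ → ℕ} (ha : IsCeilSeq a) (k : ℕ) :
    ∀ n t, t ≤ 4 → n < a (k + 1) → ¬ InA a k n →
    ∃ w y z, Bk a k w ∧ Bk a k y ∧ Bk a k z ∧ w < 5 * n + t ∧ y < 5 * n + t ∧ z < 5 * n + t ∧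
      5 * w + 2 * (5 * n + t) = 5 * y + 2 * z := by
  induction k with
  | zero =>
    intro n t ht hn hnot
    apply conflict_base ha 0 n t ht _ hn
    have h0 : ps a 0 = 0 := by simp [ps, ha.1]
    rw [h0]
    have : n ≠ 0 := hnot
    omega
  | succ k ih =>
    intro n t ht hn hnot
    by_cases h : ps a (k + 1) < n
    · exact conflict_base ha (k + 1) n t ht h hn
    · have hps := ps_succ a k
      obtain ⟨hb1, hb2⟩ := ceil_bounds ha k
      by_cases h' : n < a (k + 1)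
      · obtain ⟨w, y, z, ⟨w1, w0, hw, hw0, rfl⟩, ⟨y1, y0, hy, hy0, rfl⟩, ⟨z1, z0, hz, hz0, rfl⟩,
          hwm, hym, hzm, he⟩ := ih n t ht h' (fun h'' => hnot (Or.inl h''))
        exact ⟨_, _, _, ⟨w1, w0, Or.inl hw, hw0, rfl⟩, ⟨y1, y0, Or.inl hy, hy0, rfl⟩,
          ⟨z1, z0, Or.inl hz, hz0, rfl⟩, hwm, hym, hzm, he⟩
      · obtain ⟨w, y, z, ⟨w1, w0, hw, hw0, rfl⟩, ⟨y1, y0, hy, hy0, rfl⟩, ⟨z1, z0, hz, hz0, rfl⟩,
          hwm, hym, hzm, he⟩ := ih (n - a (k + 1)) t ht (by omega)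
            (fun h'' => hnot (Or.inr ⟨_, h'', by omega⟩))
        exact ⟨_, _, _, ⟨w1 + a (k + 1), w0, Or.inr ⟨w1, hw, rfl⟩, hw0, rfl⟩,
          ⟨y1 + a (k + 1), y0, Or.inr ⟨y1, hy, rfl⟩, hy0, rfl⟩,
          ⟨z1 + a (k + 1), z0, Or.inr ⟨z1, hz, rfl⟩, hz0, rfl⟩, by omega, by omega, by omega,
          by omega⟩

/-- The set `block a` is free. -/
theorem block_free {a : ℕ → ℕ} (ha : IsCeilSeq a) : Free (block a) := by
  intro w hw x hx y hy z hz h
  rw [mem_block ha.1] at hw hx hy hz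
  obtain ⟨k1, w1, w0, hw, hw0, rfl⟩ := hw
  obtain ⟨k2, x1, x0, hx, hx0, rfl⟩ := hx
  obtain ⟨k3, y1, y0, hy, hy0, rfl⟩ := hy
  obtain ⟨k4, z1, z0, hz, hz0, rfl⟩ := hz
  have e1 : x0 = z0 := by omega
  have := direct ha (k1 + k2 + k3 + k4) w1 x1 y1 z1 w0 y0 (InA_mono (by omega) hw)
    (InA_mono (by omega) hx) (InA_mono (by omega) hy) (InA_mono (by omega) hz) hw0 hy0 (by omega)
  omega

theorem lt_a {a : ℕ → ℕ} (ha : IsCeilSeq a) (k : ℕ) : k < a (k + 1) := by
  have h : ∀ k, k ≤ ps a k := by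
    intro k
    induction k with
    | zero => omega
    | succ k ih =>
      have := (ceil_bounds ha k).1
      rw [ps_succ]
      omega
  have := (ceil_bounds ha k).1
  have := h k
  omega

/-- Each integer outside of `block a` conflicts with smaller elements of `block a`. -/
theorem block_conflict {a : ℕ → ℕ} (ha : IsCeilSeq a) (m : ℕ) (hm : m ∉ block a) :
    ¬ Free (insert m {n | n ∈ block a ∧ n < m}) := by
  intro hfree
  have hnot : ¬ InA a (m / 5) (m / 5) := by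
    intro h
    exact hm ((mem_block ha.1 m).mpr ⟨m / 5, m / 5, m % 5, h, by omega, by omega⟩)
  obtain ⟨w, y, z, hw, hy, hz, hwm, hym, hzm, he⟩ :=
    conflict ha (m / 5) (m / 5) (m % 5) (by omega) (lt_a ha _) hnot
  have hm5 : 5 * (m / 5) + m % 5 = m := by omega
  rw [hm5] at hwm hym hzm he
  have hmem : ∀ n, Bk a (m / 5) n → n < m → n ∈ insert m {n | n ∈ block a ∧ n < m} := by
    intro n hn hlt
    right
    obtain ⟨x, u, hx, hu, rfl⟩ := hn
    exact ⟨(mem_block ha.1 _).mpr ⟨_, x, u, hx, hu, rfl⟩, hlt⟩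
  have := hfree w (hmem w hw hwm) m (Or.inl rfl) y (hmem y hy hym) z (hmem z hz hzm) he
  omega

theorem block_infinite {a : ℕ → ℕ} (ha : IsCeilSeq a) : {n | n ∈ block a}.Infinite := by
  rw [Set.infinite_iff_exists_gt]
  intro n
  refine ⟨5 * a (n + 1), ?_, ?_⟩
  · exact ⟨{n + 1}, 0, by omega, by simp⟩
  · have := lt_a ha n
    omega

theorem Free_mono {S T : Set ℕ} (h : S ⊆ T) (hT : Free T) : Free S :=
  fun w hw x hx y hy z hz he => hT w (h hw) x (h hx) y (h hy) z (h hz) he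

/-- The increasing enumeration of `block a` is the greedy sequence. -/
theorem greedy_nth {a : ℕ → ℕ} (ha : IsCeilSeq a) : IsGreedySeq (Nat.nth (fun n => n ∈ block a)) := by
  have hinf := block_infinite ha
  have hmono := Nat.nth_strictMono hinf
  have hmem : ∀ i, Nat.nth (fun n => n ∈ block a) i ∈ block a := Nat.nth_mem_of_infinite hinf
  have hrange : ∀ m, m ∈ block a → ∃ j, m = Nat.nth (fun n => n ∈ block a) j := by
    intro m hm
    have : m ∈ Set.range (Nat.nth fun n => n ∈ block a) := by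
      rw [Nat.range_nth_of_infinite hinf]
      exact hm
    obtain ⟨j, hj⟩ := this
    exact ⟨j, hj.symm⟩
  constructor
  · have h0 : (0 : ℕ) ∈ block a := ⟨∅, 0, by omega, by simp⟩
    obtain ⟨j, hj⟩ := hrange 0 h0
    have := hmono.monotone (Nat.zero_le j)
    omega
  · intro i
    constructor
    · refine ⟨hmono (by omega), ?_⟩
      refine Free_mono ?_ (block_free ha)
      intro n hn
      rcases hn with rfl | ⟨j, _, rfl⟩
      · exact hmem _
      · exact hmem _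
    · rintro m ⟨hm1, hm2⟩
      by_contra hlt
      push Not at hlt
      have hnot : m ∉ block a := by
        intro h
        obtain ⟨j, rfl⟩ := hrange m h
        have h1 := hmono.lt_iff_lt.mp hm1
        have h2 := hmono.lt_iff_lt.mp hlt
        omega
      refine block_conflict ha m hnot (Free_mono ?_ hm2)
      intro n hn
      rcases hn with rfl | ⟨hn, hnm⟩
      · exact Or.inl rfl
      · right
        obtain ⟨j, rfl⟩ := hrange n hn
        have := hmono.lt_iff_lt.mp (hnm.trans hlt)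
        exact ⟨j, by omega, rfl⟩

theorem greedy_unique {g h : ℕ → ℕ} (hg : IsGreedySeq g) (hh : IsGreedySeq h) : g = h := by
  funext i
  induction i using Nat.strong_induction_on with
  | _ i ih =>
    rcases i with _ | i
    · rw [hg.1, hh.1]
    · have e : {m | g i < m ∧ Free (insert m {n | ∃ j ≤ i, n = g j})} =
          {m | h i < m ∧ Free (insert m {n | ∃ j ≤ i, n = h j})} := by
        have e1 : {n | ∃ j ≤ i, n = g j} = {n | ∃ j ≤ i, n = h j} := by
          ext n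
          constructor
          · rintro ⟨j, hj, rfl⟩
            exact ⟨j, hj, ih j (by omega)⟩
          · rintro ⟨j, hj, rfl⟩
            exact ⟨j, hj, (ih j (by omega)).symm⟩
        rw [e1, ih i (by omega)]
      have h1 := hg.2 i
      rw [e] at h1
      exact h1.unique (hh.2 i)

theorem ten_notMem {a : ℕ → ℕ} (ha : IsCeilSeq a) : 10 ∉ block a := by
  intro h
  rw [mem_block ha.1] at h
  obtain ⟨k, x, y, hx, hy, he⟩ := h
  have hx2 : x = 2 := by omega
  have key : ∀ k x, InA a k x → x = 0 ∨ 3 ≤ x := by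
    intro k
    induction k with
    | zero => intro x hx; exact Or.inl hx
    | succ k ih =>
      rintro x (hx | ⟨x', _, rfl⟩)
      · exact ih x hx
      · right
        have := (ceil_bounds ha k).1
        omega
  have := key k x hx
  omega

theorem ten_mem {b : ℕ → ℕ} (hb : IsFloorSeq b) : 10 ∈ block b := by
  have h1 : (b 1 : ℤ) = 2 := by
    rw [hb.2 1 le_rfl]
    simp only [Finset.range_one, Finset.sum_singleton, hb.1]
    norm_num
  have h2 : b 1 = 2 := by exact_mod_cast h1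
  exact ⟨{1}, 0, by omega, by simp [h2]⟩

/-- The greedy set free of `5w + 2x = 5y + 2z` is `{5x + y : x ∈ A, 0 ≤ y ≤ 4}`, with `A` defined
by the sequence with ceilings; with the floors in place of the ceilings this is false. (There is
exactly one greedy sequence, one sequence with ceilings and one sequence with floors.) -/
theorem result : (∃! g, IsGreedySeq g) ∧ (∃ a, IsCeilSeq a) ∧ (∃ b, IsFloorSeq b) ∧
    ∀ g a b : ℕ → ℕ, IsGreedySeq g → IsCeilSeq a → IsFloorSeq b →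
      Set.range g = block a ∧ Set.range g ≠ block b := by
  refine ⟨⟨_, greedy_nth ca_isCeilSeq, fun g hg => greedy_unique hg (greedy_nth ca_isCeilSeq)⟩,
    ⟨_, ca_isCeilSeq⟩, ⟨_, fa_isFloorSeq⟩, ?_⟩
  intro g a b hg ha hb
  have h : Set.range g = block a := by
    rw [greedy_unique hg (greedy_nth ha)]
    exact Nat.range_nth_of_infinite (block_infinite ha)
  refine ⟨h, ?_⟩
  rw [h]
  intro h'
  exact ten_notMem ha (h' ▸ ten_mem hb)

end Pool.Agent.Results.MP_cb51c9_co.GreedyStructure
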